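import Pool.Agent.Helper60.GM.Defs

/-!
# Project GM, blocks D3b, D3c: the change of variables

`|det D Ar| = r |J| p² / 4`.
-/

open MeasureTheory Real Set Filter Topology

set_option autoImplicit false

namespace Pool.Agent.Helper60.GM

open Pool.Agent.Helper22.AE
open Pool.Agent.Helper92.GC (dt tp Tq uu tt arc dd sqa m6)
open Pool.Agent.Helper92.DT (m12 IsMul12)
open Pool.Agent.Helper60.LT (Fr Tf xf yf df vf fr ac co Cut BB PP)
open Pool.Agent.Helper60.QL (nm Cone)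
open Pool.Agent.Helper60.RT (R2 cn FR sp Pr prs ctr lf2 ln2)

/-- the derivative of the coordinates -/
noncomputable def Ad76 (F : Fam) (t : ℝ) (z : R2) : R2 →L[ℝ] R2 :=
  (Matrix.toLin (Module.Basis.finTwoProd ℝ) (Module.Basis.finTwoProd ℝ)
    !![F.p z.2 t / 2, z.1 * F.ps z.2 t / 2;
      -(F.x z.2 t * (F.p z.2 t / 2)), -(F.J z.2 t * (z.1 * F.p z.2 t / 2) + F.x z.2 t * (z.1 * F.ps z.2 t / 2))]).toContinuousLinearMap

set_option linter.unnecessarySeqFocus false in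
theorem Ar_deriv76 {F : Fam} {B₀ t : ℝ} (hF : F.Ok B₀) (ht : |t| ≤ 12) {z : R2} (hz : z.2 ∈ Icc (-1 : ℝ) 2) : HasFDerivAt (Ar F t) (Ad76 F t z) z := by
  have hc : HasFDerivAt (fun z : R2 => F.p z.2 t) (F.ps z.2 t • ContinuousLinearMap.snd ℝ ℝ ℝ) z :=
    (hF.hps z.2 hz t ht).comp_hasFDerivAt z hasFDerivAt_snd
  have hx : HasFDerivAt (fun z : R2 => F.x z.2 t) (F.J z.2 t • ContinuousLinearMap.snd ℝ ℝ ℝ) z :=
    (hF.hx z.2 hz t ht).comp_hasFDerivAt z hasFDerivAt_snd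
  have h1 := ((hasFDerivAt_fst (𝕜 := ℝ) (p := z)).mul hc).mul_const (2⁻¹ : ℝ)
  have h2 := (hx.mul h1).neg
  have h3 := h1.prodMk h2
  have h4 : Ar F t = fun z : R2 => (z.1 * F.p z.2 t * 2⁻¹, -(F.x z.2 t * (z.1 * F.p z.2 t * 2⁻¹))) := by
    funext z
    simp only [Ar, div_eq_mul_inv]
  rw [h4]
  unfold Ad76
  rw [Matrix.toLin_finTwoProd_toContinuousLinearMap]
  refine HasFDerivAt.congr_fderiv h3 ?_
  ext <;> simp [-mul_eq_mul_left_iff, -mul_eq_mul_right_iff] <;> ring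

theorem Ad_det76 (F : Fam) (t : ℝ) (z : R2) : (Ad76 F t z).det = -(z.1 * F.J z.2 t * F.p z.2 t ^ 2 / 4) := by
  unfold Ad76
  simp only [LinearMap.det_toContinuousLinearMap, LinearMap.det_toLin, Matrix.det_fin_two_of]
  ring

/-- the coordinates are injective -/
theorem Ar_inj76 {F : Fam} {B₀ B X σ t s₀ l : ℝ} (hF : F.Ok B₀) (hB : 1 ≤ B) (hX : 0 < X) (ht : |t| ≤ 12) (hσ : 0 < σ) (hl : In s₀ l)
    (hJ : ∀ v ∈ Icc (s₀ - l) (s₀ + l), σ ≤ |F.J v t|) : InjOn (Ar F t) (Icc (X / B) (B * X) ×ˢ Icc (s₀ - l) (s₀ + l)) := by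
  have hB0 : 0 < B := by linarith
  have hB₀ : 0 < B₀ := by linarith [hF.B1]
  have hsub : ∀ v ∈ Icc (s₀ - l) (s₀ + l), v ∈ Icc (-1 : ℝ) 2 := fun v hv => ⟨hl.2.1.trans hv.1, hv.2.trans hl.2.2⟩
  have hpos : ∀ v ∈ Icc (s₀ - l) (s₀ + l), 0 < F.p v t := fun v hv => by
    have h := hF.p_lo v (hsub v hv) t ht
    by_contra h'
    push Not at h'
    nlinarith
  have hlt : ∀ v ∈ Icc (s₀ - l) (s₀ + l), ∀ v' ∈ Icc (s₀ - l) (s₀ + l), v < v' → F.x v t ≠ F.x v' t := by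
    intro v hv v' hv' hlt he
    have hI : ∀ y ∈ Icc v v', y ∈ Icc (s₀ - l) (s₀ + l) := fun y hy => ⟨hv.1.trans hy.1, hy.2.trans hv'.2⟩
    obtain ⟨y, hy, h0⟩ := exists_hasDerivAt_eq_zero (f := fun s => F.x s t) (f' := fun s => F.J s t) hlt
      (fun y hy => (hF.hx y (hsub y (hI y hy)) t ht).continuousAt.continuousWithinAt) he
      (fun y hy => hF.hx y (hsub y (hI y ⟨hy.1.le, hy.2.le⟩)) t ht)
    have h1 := hJ y (hI y ⟨hy.1.le, hy.2.le⟩)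
    rw [h0, abs_zero] at h1
    linarith
  rintro ⟨r, s⟩ ⟨hr, hs⟩ ⟨r', s'⟩ ⟨hr', hs'⟩ h
  simp only at hr hs hr' hs'
  have hr0 : 0 < r := lt_of_lt_of_le (by positivity) hr.1
  have hr0' : 0 < r' := lt_of_lt_of_le (by positivity) hr'.1
  have hp := hpos s hs
  have hp' := hpos s' hs'
  have h1 : r * F.p s t / 2 = r' * F.p s' t / 2 := congrArg Prod.fst h
  have h2 : -(F.x s t * (r * F.p s t / 2)) = -(F.x s' t * (r' * F.p s' t / 2)) := congrArg Prod.snd h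
  rw [h1, neg_inj] at h2
  have h3 : F.x s t = F.x s' t := mul_right_cancel₀ (by positivity) h2
  have h4 : s = s' := by
    rcases lt_trichotomy s s' with h | h | h
    · exact absurd h3 (hlt s hs s' hs' h)
    · exact h
    · exact absurd h3.symm (hlt s' hs' s hs h)
  subst h4
  have h5 : r = r' := by
    have h6 : r * (F.p s t / 2) = r' * (F.p s t / 2) := by linarith
    exact mul_right_cancel₀ (by positivity) h6
  rw [h5]

/-- the change of variables -/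
theorem OR_int76 {F : Fam} {B₀ B X σ t s₀ l : ℝ} (hF : F.Ok B₀) (hB : 1 ≤ B) (hX : 0 < X) (ht : |t| ≤ 12) (hσ : 0 < σ) (hl : In s₀ l)
    (hJ : ∀ v ∈ Icc (s₀ - l) (s₀ + l), σ ≤ |F.J v t|) (G : R2 → ENNReal) :
    ∫⁻ A in OR F t s₀ l B X, G A = ∫⁻ z in Icc (X / B) (B * X) ×ˢ Icc (s₀ - l) (s₀ + l), ENNReal.ofReal |(Ad76 F t z).det| * G (Ar F t z) := by
  unfold OR
  refine lintegral_image_eq_lintegral_abs_det_fderiv_mul volume (measurableSet_Icc.prod measurableSet_Icc) (fun z hz => ?_) (Ar_inj76 hF hB hX ht hσ hl hJ) G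
  exact (Ar_deriv76 hF ht ⟨hl.2.1.trans hz.2.1, hz.2.2.trans hl.2.2⟩).hasFDerivWithinAt

/-- the double integral over the rectangle -/
theorem rect_int76 {F : Fam} {B₀ B X t s₀ l : ℝ} (hF : F.Ok B₀) (ht : |t| ≤ 12) (hl : In s₀ l) {G : R2 → ENNReal} (hG : Measurable G) :
    ∫⁻ s in Icc (s₀ - l) (s₀ + l), ∫⁻ r in Icc (X / B) (B * X), G (Ar F t (r, s)) =
      ∫⁻ z in Icc (X / B) (B * X) ×ˢ Icc (s₀ - l) (s₀ + l), G (Ar F t z) := by
  have h1 : ContinuousOn (Ar F t) (Icc (X / B) (B * X) ×ˢ Icc (s₀ - l) (s₀ + l)) := fun z hz =>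
    (Ar_deriv76 hF ht ⟨hl.2.1.trans hz.2.1, hz.2.2.trans hl.2.2⟩).continuousAt.continuousWithinAt
  have h2 : AEMeasurable (Ar F t) (volume.restrict (Icc (X / B) (B * X) ×ˢ Icc (s₀ - l) (s₀ + l))) :=
    h1.aemeasurable (measurableSet_Icc.prod measurableSet_Icc)
  have h3 : AEMeasurable (fun z => G (Ar F t z)) (volume.restrict (Icc (X / B) (B * X) ×ˢ Icc (s₀ - l) (s₀ + l))) := hG.comp_aemeasurable h2
  rw [Measure.volume_eq_prod, ← Measure.prod_restrict] at h3 ⊢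
  rw [lintegral_prod_symm _ h3]

/-- the size of the determinant -/
theorem det_bd76 {F : Fam} {B₀ B X t s₀ l : ℝ} (hF : F.Ok B₀) (hB : 1 ≤ B) (hX : 0 < X) (ht : |t| ≤ 12) (hl : In s₀ l) {z : R2}
    (hz : z ∈ Icc (X / B) (B * X) ×ˢ Icc (s₀ - l) (s₀ + l)) :
    X / (4 * B * B₀ ^ 2) * |F.J z.2 t| ≤ |(Ad76 F t z).det| ∧ |(Ad76 F t z).det| ≤ B * B₀ ^ 2 * X * |F.J z.2 t| := by
  obtain ⟨r, s⟩ := z
  obtain ⟨hr, hs⟩ := hz
  simp only at hr hs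
  have hB0 : 0 < B := by linarith
  have hB₀ : 0 < B₀ := by linarith [hF.B1]
  have hs' : s ∈ Icc (-1 : ℝ) 2 := ⟨hl.2.1.trans hs.1, hs.2.trans hl.2.2⟩
  have hr0 : 0 < r := lt_of_lt_of_le (by positivity) hr.1
  have h1 := hF.p_lo s hs' t ht
  have hp0 : 0 < F.p s t := by
    by_contra h'
    push Not at h'
    nlinarith
  have h2 : F.p s t ≤ B₀ := (le_abs_self _).trans (hF.bd s hs' t ht).2.2.1
  have h3 : 1 / B₀ ≤ F.p s t := by
    rw [div_le_iff₀ hB₀]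
    linarith
  have h4 : |(Ad76 F t (r, s)).det| = r * F.p s t ^ 2 / 4 * |F.J s t| := by
    rw [Ad_det76, abs_neg, show r * F.J s t * F.p s t ^ 2 / 4 = r * F.p s t ^ 2 / 4 * F.J s t by ring, abs_mul, abs_of_pos (by positivity)]
  rw [h4]
  constructor
  · have h5 : X / (4 * B * B₀ ^ 2) = X / B * (1 / B₀) ^ 2 / 4 := by
      field_simp
    rw [h5]
    have h6 := hr.1
    gcongr
  · have h6 := hr.2
    calc r * F.p s t ^ 2 / 4 * |F.J s t| ≤ B * X * B₀ ^ 2 / 4 * |F.J s t| := by gcongr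
      _ ≤ B * B₀ ^ 2 * X * |F.J s t| := by
          refine mul_le_mul_of_nonneg_right ?_ (abs_nonneg _)
          have : 0 < B * B₀ ^ 2 * X := by positivity
          nlinarith

/-- D3b: change of variables, upper bound -/
theorem upG {B₀ B : ℝ} (hB₀ : 1 ≤ B₀) (hB : 1 ≤ B) : ∃ C : ℝ, 1 ≤ C ∧ ∀ (F : Fam), F.Ok B₀ → ∀ (X σ t₀ s₀ l : ℝ) (G : R2 → ENNReal), 0 < X → |t₀| ≤ 3 → 0 < σ → In s₀ l →
    (∀ v ∈ Icc (s₀ - l) (s₀ + l), σ ≤ |F.J v t₀|) → Measurable G →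
      ∫⁻ s in Icc (s₀ - l) (s₀ + l), ∫⁻ r in Icc (X / B) (B * X), G (Ar F t₀ (r, s)) ≤ ENNReal.ofReal (C / (X * σ)) * ∫⁻ A in OR F t₀ s₀ l B X, G A := by
  refine ⟨4 * B * B₀ ^ 2, ?_, fun F hF X σ t₀ s₀ l G hX ht hσ hl hJ hG => ?_⟩
  · have h1 : 1 ≤ B₀ ^ 2 := one_le_pow₀ hB₀
    nlinarith
  have ht' : |t₀| ≤ 12 := by linarith
  have hB0 : 0 < B := by linarith
  have hB₀' : 0 < B₀ := by linarith
  rw [rect_int76 hF ht' hl hG, OR_int76 hF hB hX ht' hσ hl hJ G, ← lintegral_const_mul' _ _ ENNReal.ofReal_ne_top]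
  refine setLIntegral_mono' (measurableSet_Icc.prod measurableSet_Icc) fun z hz => ?_
  rw [← mul_assoc, ← ENNReal.ofReal_mul (by positivity)]
  refine le_mul_of_one_le_left (by positivity) ?_
  rw [ENNReal.one_le_ofReal]
  have h4 := (det_bd76 hF hB hX ht' hl hz).1
  have h5 := hJ z.2 hz.2
  calc (1 : ℝ) = 4 * B * B₀ ^ 2 / (X * σ) * (X / (4 * B * B₀ ^ 2) * σ) := by field_simp
    _ ≤ 4 * B * B₀ ^ 2 / (X * σ) * |(Ad76 F t₀ z).det| := by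
        gcongr
        refine le_trans ?_ h4
        gcongr

/-- D3c: change of variables, lower bound -/
theorem loG {B₀ B Λ : ℝ} (hB₀ : 1 ≤ B₀) (hB : 1 ≤ B) (hΛ : 1 ≤ Λ) : ∃ C : ℝ, 1 ≤ C ∧ ∀ (F : Fam), F.Ok B₀ → ∀ (X σ t₀ s₀ l : ℝ) (G : R2 → ENNReal), 0 < X → |t₀| ≤ 3 → 0 < σ → In s₀ l →
    (∀ v ∈ Icc (s₀ - l) (s₀ + l), σ ≤ |F.J v t₀| ∧ |F.J v t₀| ≤ Λ * σ) → Measurable G →
      ∫⁻ A in OR F t₀ s₀ l B X, G A ≤ ENNReal.ofReal (C * X * σ) * ∫⁻ s in Icc (s₀ - l) (s₀ + l), ∫⁻ r in Icc (X / B) (B * X), G (Ar F t₀ (r, s)) := by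
  refine ⟨B * B₀ ^ 2 * Λ, ?_, fun F hF X σ t₀ s₀ l G hX ht hσ hl hJ hG => ?_⟩
  · have h1 : 1 ≤ B₀ ^ 2 := one_le_pow₀ hB₀
    exact one_le_mul_of_one_le_of_one_le (one_le_mul_of_one_le_of_one_le hB h1) hΛ
  have ht' : |t₀| ≤ 12 := by linarith
  have hB0 : 0 < B := by linarith
  have hB₀' : 0 < B₀ := by linarith
  rw [rect_int76 hF ht' hl hG, OR_int76 hF hB hX ht' hσ hl (fun v hv => (hJ v hv).1) G, ← lintegral_const_mul' _ _ ENNReal.ofReal_ne_top]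
  refine setLIntegral_mono' (measurableSet_Icc.prod measurableSet_Icc) fun z hz => ?_
  refine mul_le_mul_left ?_ _
  refine ENNReal.ofReal_le_ofReal ((det_bd76 hF hB hX ht' hl hz).2.trans ?_)
  have h5 := (hJ z.2 hz.2).2
  calc B * B₀ ^ 2 * X * |F.J z.2 t₀| ≤ B * B₀ ^ 2 * X * (Λ * σ) := by gcongr
    _ = B * B₀ ^ 2 * Λ * X * σ := by ring

end Pool.Agent.Helper60.GM
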